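import Pool.Agent.R288.AS.Gauss

/-! MP_034ad4_an: for the Gauss map the set of points whose asymptotic set has Hausdorff
dimension `1/2` has Hausdorff dimension `1`. -/

namespace Pool.Agent.Results.MP_034ad4_an.GaussHalf
open Set MeasureTheory Filter Topology Pool.Agent.R288.AS

/-- The Gauss map: `0` is sent to `0` and `x ≠ 0` to `1/x - ⌊1/x⌋`. -/
noncomputable def gaussMap (x : ℝ) : ℝ := if x = 0 then 0 else 1 / x - ⌊1 / x⌋

/-- The level set `Θ(G; 1/2)` of the Gauss map has Hausdorff dimension `1`. -/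
theorem result :
    dimH {x : ℝ | x ∈ Ico (0:ℝ) 1 ∧
      dimH {y : ℝ | y ∈ Ico (0:ℝ) 1 ∧
        Tendsto (fun n : ℕ => |gaussMap^[n] x - gaussMap^[n] y|) atTop (𝓝 0)} = 1/2} = 1 :=
  dimH_half gauss_isSys gauss_isMeas

end Pool.Agent.Results.MP_034ad4_an.GaussHalf
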